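import Pool.Agent.Helper20.AJ.F
import Pool.Agent.Helper38.MC.Lift3

/-!
ME1: removing a block, sentences of monadic second-order logic, with `2 ^ (c (t + 1))` blocks of `t`
points
-/

set_option autoImplicit false

namespace Pool.Agent.Helper29.ME

open Pool.Agent.Helper20.Spectra Pool.Agent.Helper31.QD Pool.Agent.Helper38.MC
  Pool.Agent.Helper29.MW Pool.Agent.Helper6.MC Pool.Agent.Helper14.SS

variable {S : Type} {ar : S → ℕ}

lemma pow_ge_one (c t : ℕ) : 1 ≤ 2 ^ (c * (t + 1)) := Nat.one_le_two_pow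

lemma pow_succ_le {K c t : ℕ} (h : K ≤ 2 ^ (c * (t + 1))) : K + 1 ≤ 2 ^ ((c + 1) * (t + 1)) := by
  have h1 : 2 ^ ((c + 1) * (t + 1)) = 2 ^ (c * (t + 1)) * 2 ^ (t + 1) := by
    rw [← pow_add]
    congr 1
    ring
  have h2 : 2 ≤ 2 ^ (t + 1) := by
    calc 2 = 2 ^ 1 := rfl
      _ ≤ 2 ^ (t + 1) := Nat.pow_le_pow_right (by norm_num) (by omega)
  have h3 := Nat.mul_le_mul_left (2 ^ (c * (t + 1))) h2
  have h4 := pow_ge_one c t
  omega

lemma pow_set_le {K c t : ℕ} (h : K ≤ 2 ^ (c * (t + 1))) :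
    2 ^ t * K ≤ 2 ^ ((c + 1) * (t + 1)) := by
  have h1 : 2 ^ ((c + 1) * (t + 1)) = 2 ^ (t + 1) * 2 ^ (c * (t + 1)) := by
    rw [← pow_add]
    congr 1
    ring
  rw [h1]
  exact Nat.mul_le_mul (Nat.pow_le_pow_right (by norm_num) (by omega)) h

/-- the game determines the truth of monadic second-order formulas, with a bound -/
theorem efMb {k m : ℕ} (φ : MFm S ar k m) : ∃ c : ℕ, ∀ (T : Type) [Fintype T] [DecidableEq T],
    ∃ K, 1 ≤ K ∧ K ≤ 2 ^ (c * (Fintype.card T + 1)) ∧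
    ∀ (N ι κ : Type) [Finite ι] [Finite κ] [Nonempty ι] [Nonempty κ]
    (R : Interp S ar (N ⊕ ι × T)) (R' : Interp S ar (N ⊕ κ × T)), LI R R' →
    ∀ v V v' V', Sim K v V v' V' → (φ.Holds R v V ↔ φ.Holds R' v' V') := by
  induction φ with
  | eq i j =>
    refine ⟨0, fun T _ _ => ?_⟩
    refine ⟨1, le_rfl, Nat.one_le_two_pow, fun N ι κ _ _ _ _ R R' _ v V v' V' h => ?_⟩
    obtain ⟨g, hg, hv, -⟩ := h.match le_rfl
    show v i = v j ↔ v' i = v' j
    rw [hv]
    show v i = v j ↔ mp g (v i) = mp g (v j)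
    refine ⟨fun h => by rw [h], fun h => ?_⟩
    rcases e : v i with y | ⟨l, x⟩
    · rcases e' : v j with y' | ⟨l', x'⟩
      · rw [e, e'] at h
        have h' : (Sum.inl y : N ⊕ κ × T) = Sum.inl y' := h
        rw [Sum.inl_injective h']
      · rw [e, e'] at h
        exact absurd h (by simp [mp])
    · rcases e' : v j with y' | ⟨l', x'⟩
      · rw [e, e'] at h
        exact absurd h (by simp [mp])
      · rw [e, e'] at h
        have h1 : (Sum.inr (g l, x) : N ⊕ κ × T) = Sum.inr (g l', x') := h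
        have h2 := Prod.ext_iff.1 (Sum.inr_injective h1)
        have h3 : l = l' := hg ⟨i, x, e⟩ ⟨j, x', e'⟩ h2.1
        have h4 : x = x' := h2.2
        rw [h3, h4]
  | rel s f =>
    refine ⟨0, fun T _ _ => ?_⟩
    refine ⟨1, le_rfl, Nat.one_le_two_pow, fun N ι κ _ _ _ _ R R' hL v V v' V' h => ?_⟩
    obtain ⟨g, hg, hv, -⟩ := h.match le_rfl
    show R s (fun i => v (f i)) ↔ R' s (fun i => v' (f i))
    rw [hv]
    refine (hL s (fun i => v (f i)) g ?_).symm
    intro i hi j hj hij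
    obtain ⟨a, x, ha⟩ := hi
    obtain ⟨b, y, hb⟩ := hj
    exact hg ⟨f a, x, ha⟩ ⟨f b, y, hb⟩ hij
  | mem i j =>
    refine ⟨0, fun T _ _ => ?_⟩
    refine ⟨1, le_rfl, Nat.one_le_two_pow, fun N ι κ _ _ _ _ R R' _ v V v' V' h => ?_⟩
    obtain ⟨g, -, -, hm⟩ := h.match le_rfl
    exact hm i j
  | not φ ih =>
    obtain ⟨c, ih⟩ := ih
    refine ⟨c, fun T _ _ => ?_⟩
    obtain ⟨K, hK, hK2, ih⟩ := ih T
    exact ⟨K, hK, hK2, fun N ι κ _ _ _ _ R R' hL v V v' V' h =>
      not_congr (ih N ι κ R R' hL _ _ _ _ h)⟩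
  | and φ ψ ih ih' =>
    obtain ⟨c, ih⟩ := ih
    obtain ⟨c', ih'⟩ := ih'
    refine ⟨max c c', fun T _ _ => ?_⟩
    obtain ⟨K, hK, hK2, ih⟩ := ih T
    obtain ⟨K', hK', hK2', ih'⟩ := ih' T
    have h1 : 2 ^ (c * (Fintype.card T + 1)) ≤ 2 ^ (max c c' * (Fintype.card T + 1)) :=
      Nat.pow_le_pow_right (by norm_num) (Nat.mul_le_mul_right _ (le_max_left _ _))
    have h2 : 2 ^ (c' * (Fintype.card T + 1)) ≤ 2 ^ (max c c' * (Fintype.card T + 1)) :=
      Nat.pow_le_pow_right (by norm_num) (Nat.mul_le_mul_right _ (le_max_right _ _))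
    exact ⟨max K K', hK.trans (le_max_left _ _), max_le (hK2.trans h1) (hK2'.trans h2),
      fun N ι κ _ _ _ _ R R' hL v V v' V' h =>
      and_congr (ih N ι κ R R' hL _ _ _ _ (h.mono (le_max_left _ _)))
        (ih' N ι κ R R' hL _ _ _ _ (h.mono (le_max_right _ _)))⟩
  | ex φ ih =>
    obtain ⟨c, ih⟩ := ih
    refine ⟨c + 1, fun T _ _ => ?_⟩
    obtain ⟨K, hK, hK2, ih⟩ := ih T
    refine ⟨K + 1, by omega, pow_succ_le hK2, fun N ι κ _ _ _ _ R R' hL v V v' V' h => ?_⟩
    constructor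
    · rintro ⟨x, hx⟩
      obtain ⟨x', hx'⟩ := h.ex_step x
      exact ⟨x', (ih N ι κ R R' hL _ _ _ _ hx').1 hx⟩
    · rintro ⟨x, hx⟩
      obtain ⟨x', hx'⟩ := h.symm.ex_step x
      exact ⟨x', (ih N κ ι R' R hL.symm _ _ _ _ hx').1 hx⟩
  | exSet φ ih =>
    obtain ⟨c, ih⟩ := ih
    refine ⟨c + 1, fun T _ _ => ?_⟩
    obtain ⟨K, hK, hK2, ih⟩ := ih T
    have hcard : Fintype.card (T → Bool) = 2 ^ Fintype.card T := by simp
    refine ⟨Fintype.card (T → Bool) * K, Nat.mul_le_mul Fintype.card_pos hK,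
      by rw [hcard]; exact pow_set_le hK2,
      fun N ι κ _ _ _ _ R R' hL v V v' V' h => ?_⟩
    constructor
    · rintro ⟨X, hX⟩
      obtain ⟨X', hX'⟩ := h.set_step X
      exact ⟨X', (ih N ι κ R R' hL _ _ _ _ hX').1 hX⟩
    · rintro ⟨X, hX⟩
      obtain ⟨X', hX'⟩ := h.symm.set_step X
      exact ⟨X', (ih N κ ι R' R hL.symm _ _ _ _ hX').1 hX⟩

/-- many blocks, with a bound -/
theorem pumpXMb (φ : MFm S ar 0 0) : ∃ c : ℕ, ∀ (t : ℕ)
    (N ι κ : Type) [Finite ι] [Finite κ] (R : Interp S ar (N ⊕ ι × Fin t)),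
      (∀ π : Equiv.Perm ι, Au R (bp π)) → 2 ^ (c * (t + 1)) ≤ Nat.card ι →
      2 ^ (c * (t + 1)) ≤ Nat.card κ → (MSat R φ ↔ MSat (ext R κ) φ) := by
  obtain ⟨c, hc⟩ := efMb φ
  refine ⟨c, fun t N ι κ _ _ R hR h1 h2 => ?_⟩
  obtain ⟨K, hK, hK2, h⟩ := hc (Fin t)
  rw [Fintype.card_fin] at hK2
  replace h1 := hK2.trans h1
  replace h2 := hK2.trans h2
  have : Nonempty ι := by
    by_contra hcon
    have := not_nonempty_iff.1 hcon
    rw [Nat.card_of_isEmpty] at h1
    omega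
  have : Nonempty κ := by
    by_contra hcon
    have := not_nonempty_iff.1 hcon
    rw [Nat.card_of_isEmpty] at h2
    omega
  refine h N ι κ R (ext R κ) (LI_ext hR κ) _ _ _ _ ?_
  refine ⟨Unit, fun _ => (), fun _ => (), fun _ a => a.elim0, fun _ a => a.elim0, ?_,
    fun _ a => a.elim0, fun _ a => a.elim0, fun _ a => a.elim0, fun _ a => a.elim0,
    fun a => a.elim0, fun a => a.elim0⟩
  intro c
  right
  have e1 : Nat.card {i : ι // (fun _ => () : ι → Unit) i = c} = Nat.card ι :=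
    Nat.card_congr (Equiv.subtypeUnivEquiv (fun _ => rfl))
  have e2 : Nat.card {i : κ // (fun _ => () : κ → Unit) i = c} = Nat.card κ :=
    Nat.card_congr (Equiv.subtypeUnivEquiv (fun _ => rfl))
  rw [e1, e2]
  exact ⟨h1, h2⟩

end Pool.Agent.Helper29.ME

namespace Pool.Agent.Helper29.ME

open FirstOrder Pool.Agent.Helper20.Spectra Pool.Agent.Helper58.QD Pool.Agent.Helper14.SS
open Pool.Agent.Helper31.QD (Au)
open Pool.Agent.Helper40.MCM Pool.Agent.Helper53.AJ
open Pool.Agent.Helper38.MC (mp bp used ext bp_eq mp_mp inv_choice ext_inv ext_res mp_inj)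
open Pool.Agent.Helper6.MC (exists_mfm FamR)
open Pool.Agent.Helper29.MW (MFm MSat MSat.iso)

variable {S : Type} {ar : S → ℕ}

/-- removal, both forms, over one constant -/
theorem removeM [Finite S] (φ : SFm (RelLang S ar) 0 0) : ∃ c : ℕ,
    (∀ (V : Type) [Fintype V] (R : Interp S ar V), SatM φ R → ∀ q t : ℕ,
      2 ^ (c * (t + 1)) < q → ∀ u : Fin q × Fin t → V, Hm R u →
      ∀ (i : Fin q) [Fintype (off u i)], SatM φ (rs R (off u i))) ∧
    ∀ (n q t Q r : ℕ) (R : Interp S ar (Fin n)), (∀ s, ar s ≤ r) → SatM φ R →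
      FamR R (q + 1) t → 2 ^ (c * (t + 1)) ≤ q → ∃ n', n' + t = n ∧
      ∃ R' : Interp S ar (Fin n'), SatM φ R' ∧
        ∀ t', Q * t' + r < q → FamR R' Q t' → FamR R Q t' := by
  classical
  obtain ⟨ψ, hψ⟩ := exists_mfm φ
  obtain ⟨c, hc⟩ := pumpXMb ψ
  refine ⟨c, ?_, ?_⟩
  · intro V _ R hM q t hq u hu i _
    rw [hψ] at hM ⊢
    have hM0 : MSat (cutR u hu.1 R) ψ := by
      have h := (MSat.iso R (cutE u hu.1).symm ψ).1 hM
      exact h
    have h1 := (hc t _ (Fin q) {j : Fin q // j ≠ i} (cutR u hu.1 R) (cutR_bp hu)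
      (by rw [Nat.card_eq_fintype_card, Fintype.card_fin]; omega)
      (by
        rw [Nat.card_eq_fintype_card]
        have h2 : Fintype.card {j : Fin q // j ≠ i} = q - 1 := by
          rw [Fintype.card_subtype_compl, Fintype.card_fin, Fintype.card_subtype_eq]
        rw [h2]
        omega)).1 hM0
    have h2 := (MSat.iso _ (offE hu.1 i) ψ).1 h1
    have h3 : (fun s w => ext (cutR u hu.1 R) {j : Fin q // j ≠ i} s
        fun a => (offE hu.1 i).symm (w a)) = rs R (off u i) := by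
      funext s w
      apply propext
      show ext (cutR u hu.1 R) {j : Fin q // j ≠ i} s ((offE hu.1 i).symm ∘ w) ↔
        R s (fun a => (w a : V))
      have h4 : (fun a => (w a : V)) = cutE u hu.1 ∘ (mp Subtype.val ∘ ((offE hu.1 i).symm ∘ w)) := by
        funext a
        show (w a : V) = cutE u hu.1 (mp Subtype.val ((offE hu.1 i).symm (w a)))
        rw [← offE_eq hu.1 i, Equiv.apply_symm_apply]
      rw [h4]
      constructor
      · rintro ⟨g, hg1, hg2⟩
        exact (inv_choice (cutR_bp hu) _ hg1 (Subtype.val_injective.injOn)).1 hg2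
      · intro h
        exact ⟨Subtype.val, Subtype.val_injective.injOn, h⟩
    rw [h3] at h2
    exact h2
  · intro n q t Q r R har hM hF hq
    have hF' : Pool.Agent.Helper38.MC.FamA R t (q + 1) := hF
    obtain ⟨N, hN, e, hinv⟩ := Pool.Agent.Helper38.MC.decomp hF'
    rw [hψ] at hM
    have hM0 : MSat (fun s w => R s (e ∘ w)) ψ := (MSat.iso R e.symm ψ).1 hM
    have h1 := (hc t N (Fin (q + 1)) (Fin q) (fun s w => R s (e ∘ w)) hinv
      (by rw [Nat.card_eq_fintype_card, Fintype.card_fin]; omega)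
      (by rw [Nat.card_eq_fintype_card, Fintype.card_fin]; omega)).1 hM0
    have hE : ext (fun s w => R s (e ∘ w)) (Fin q) =
        (fun s (w : Fin (ar s) → N ⊕ Fin q × Fin t) => R s (e ∘ (mp Fin.castSucc ∘ w))) := by
      funext s w
      apply propext
      constructor
      · rintro ⟨g, hg1, hg2⟩
        exact (inv_choice (R := fun s w => R s (e ∘ w)) hinv w hg1
          ((Fin.castSucc_injective q).injOn)).1 hg2
      · intro h
        exact ⟨Fin.castSucc, (Fin.castSucc_injective q).injOn, h⟩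
    rw [hE] at h1
    have hc' : Fintype.card (N ⊕ Fin q × Fin t) + t = n := by
      have h2 := Fintype.card_congr e
      rw [Fintype.card_sum, Fintype.card_prod, Fintype.card_fin, Fintype.card_fin,
        Fintype.card_fin] at h2
      rw [Fintype.card_sum, Fintype.card_prod, Fintype.card_fin, Fintype.card_fin, ← h2]
      ring
    obtain ⟨n', hn'⟩ : ∃ n', n' = Fintype.card (N ⊕ Fin q × Fin t) := ⟨_, rfl⟩
    let e2 : N ⊕ Fin q × Fin t ≃ Fin n' := Fintype.equivFinOfCardEq hn'.symm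
    refine ⟨n', by omega, fun s w => R s (e ∘ (mp Fin.castSucc ∘ (e2.symm ∘ w))), ?_, ?_⟩
    · rw [hψ]
      exact (MSat.iso _ e2 ψ).1 h1
    · intro t' hQ hF2
      have hF3 : Pool.Agent.Helper38.MC.FamA
        (fun s w => R s (e ∘ (mp Fin.castSucc ∘ (e2.symm ∘ w)))) t' Q := hF2
      have h3 := hF3.equiv e2
      have e3 : (fun (s : S) (w : Fin (ar s) → N ⊕ Fin q × Fin t) =>
          R s (e ∘ (mp Fin.castSucc ∘ (e2.symm ∘ (e2 ∘ w))))) =
          fun s w => R s (e ∘ (mp Fin.castSucc ∘ w)) := by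
        funext s w
        have : e2.symm ∘ (e2 ∘ w) = w := by
          funext a
          exact e2.symm_apply_apply (w a)
        rw [this]
      rw [e3] at h3
      have h4 := Pool.Agent.Helper38.MC.lift_fam (R := fun s w => R s (e ∘ w)) har hinv hQ h3
      have h5 := h4.equiv e.symm
      have e4 : (fun (s : S) (w : Fin (ar s) → Fin n) => R s (e ∘ (e.symm ∘ w))) = R := by
        funext s w
        have : e ∘ (e.symm ∘ w) = w := by
          funext a
          exact e.apply_symm_apply (w a)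
        rw [this]
      rw [e4] at h5
      exact h5

end Pool.Agent.Helper29.ME
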